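import Pool.Agent.Q215.GB.Dec

/-!
Functions in `M_ξ` are `lam`-limits of functions in `\widehat{lim}^ξ_{cof ξ} M_{<ξ}`.
-/

set_option autoImplicit false

open Set Topology Filter Cardinal
open Pool.Agent.Results.MP_f4bae3_lc.SequentialLimits

namespace Pool.Agent.Q215.GB

variable {lam : Cardinal.{0}}

lemma meas_of_isEmpty {X Y : Type} [TopologicalSpace X] [TopologicalSpace Y] [IsEmpty X]
    (f : X → Y) : Meas lam 1 f := fun U _ => by
  have : f ⁻¹' U = ∅ := Set.eq_empty_of_isEmpty _
  rw [this]
  exact SigmaClass.base _ isOpen_empty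

theorem bwd (h0 : ℵ₀ < lam) (hreg : lam.IsRegular) (hpow : 2 ^< lam = lam)
    {X Y : Set (GSpace lam)} {ξ : Ordinal.{0}} (hlim : Order.IsSuccLimit ξ)
    {f : X → Y} (hf : Meas lam ξ f) : LamLim lam (HatLim lam ξ.cof ξ) f := by
  classical
  have hN : Nice lam X := nice_sub h0 hreg hpow X
  have hne := nonempty_L h0
  obtain ⟨e, he1, he2, he3, he4⟩ := exists_seq hlim
  obtain ⟨k0, -⟩ := he4 1 (one_lt_limit hlim)
  rcases isEmpty_or_nonempty X with hX | ⟨⟨x0⟩⟩
  · refine ⟨fun _ => f, fun _ => ⟨fun _ => f, fun _ => univ, fun _ => ⟨1, le_rfl,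
      one_lt_limit hlim, meas_of_isEmpty f⟩, fun _ => sigma_univ hN (one_lt_limit hlim).le,
      fun _ _ _ => Subset.rfl, fun x => (hX.false x).elim, fun _ _ _ x _ => rfl⟩,
      fun x => (hX.false x).elim⟩
  let rep : (a : lam.ord.ToType) → (Iio a → lam.ord.ToType) → Y := fun a c =>
    if h : ∃ y : Y, rst a y.1 = c then h.choose else f x0
  have hrep : ∀ a (y : Y), rst a (rep a (rst a y.1)).1 = rst a y.1 := by
    intro a y
    have h : ∃ y' : Y, rst a y'.1 = rst a y.1 := ⟨y, rfl⟩
    simp only [rep, dif_pos h]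
    exact h.choose_spec
  let F : lam.ord.ToType → X → Y := fun a x => rep a (rst a (f x).1)
  refine ⟨F, fun a => ?_, fun x => ?_⟩
  · let P : (Iio a → lam.ord.ToType) → Set X := fun c => {x | rst a (f x).1 = c}
    have hP : ∀ c, SigmaClass lam ξ (P c) := by
      intro c
      obtain ⟨z, hz⟩ := exists_N (⟨a, c⟩ : Σ a : lam.ord.ToType, (Iio a → lam.ord.ToType))
      have e1 : P c = f ⁻¹' (Subtype.val ⁻¹' Bs ⟨a, c⟩) := by
        ext x
        constructor
        · intro hx b
          exact congrFun hx b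
        · intro hx
          funext b
          exact hx b
      rw [e1]
      exact hf _ (by rw [hz]; exact (isOpen_N z _).preimage continuous_subtype_val)
    choose Q hQ1 hQ2 hQ3 hQ4 using fun c => sigma_dec hlim (one_lt_limit hlim) (hP c)
    let C : ξ.cof.ord.ToType → Set X := fun k => ⋃ c, Q c (e k)
    have hcard := card_functions h0 hreg hpow a
    have hC : ∀ k, SigmaClass lam (e k) (C k) := fun k =>
      sigma_iUnion h0 (he1 k).le hcard fun c => hQ1 c _ (he1 k)
    refine ⟨fun k x => if x ∈ C k then F a x else f x0, C, fun k => ?_, fun k =>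
      sigma_mono hN (he2 k).le (hC k), fun k l hkl x hx => ?_, fun x => ?_,
      fun k l hkl x hx => ?_⟩
    · refine ⟨e k + 1, (he1 k).le.trans le_self_add, hlim.add_one_lt (he2 k), fun U hU => ?_⟩
      have key : (fun x => if x ∈ C k then F a x else f x0) ⁻¹' U =
          (⋃ c : {c : Iio a → lam.ord.ToType // rep a c ∈ U}, Q c.1 (e k)) ∪
            (if f x0 ∈ U then (C k)ᶜ else ∅) := by
        ext x
        simp only [mem_preimage, mem_union, mem_iUnion]
        constructor
        · intro hx
          split_ifs at hx with hxC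
          · left
            obtain ⟨c, hc⟩ := mem_iUnion.1 hxC
            have hcx : rst a (f x).1 = c := hQ4 c _ hc
            refine ⟨⟨c, ?_⟩, hc⟩
            rw [← hcx]
            exact hx
          · right
            rw [if_pos hx]
            exact hxC
        · rintro (⟨⟨c, hc⟩, hxc⟩ | hx)
          · have hxC : x ∈ C k := mem_iUnion.2 ⟨c, hxc⟩
            rw [if_pos hxC]
            have hcx : rst a (f x).1 = c := hQ4 c _ hxc
            show rep a (rst a (f x).1) ∈ U
            rw [hcx]
            exact hc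
          · split_ifs at hx with hy
            · rw [if_neg hx]
              exact hy
            · exact hx.elim
      rw [key]
      refine sigma_union h0 (sigma_iUnion h0 ((he1 k).le.trans le_self_add)
        ((Cardinal.mk_subtype_le _).trans hcard) fun c =>
          sigma_mono hN le_self_add (hQ1 c.1 _ (he1 k))) ?_
      split_ifs
      · exact (hC k).compl h0
      · exact sigma_empty h0 ((he1 k).le.trans le_self_add)
    · obtain ⟨c, hc⟩ := mem_iUnion.1 hx
      exact mem_iUnion.2 ⟨c, hQ2 c _ _ (he3 k l hkl) hc⟩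
    · obtain ⟨ζ, hζ, hxζ⟩ := hQ3 (rst a (f x).1) x rfl
      obtain ⟨k, hk⟩ := he4 ζ hζ
      exact ⟨k, mem_iUnion.2 ⟨_, hQ2 _ _ _ hk hxζ⟩⟩
    · have hx' : x ∈ C l := by
        obtain ⟨c, hc⟩ := mem_iUnion.1 hx
        exact mem_iUnion.2 ⟨c, hQ2 c _ _ (he3 k l hkl) hc⟩
      show (if x ∈ C l then F a x else f x0) = F a x
      rw [if_pos hx']
  · rw [tendsto_nhds]
    intro U hU hx
    obtain ⟨W, hW, rfl⟩ := isOpen_induced_iff.1 hU
    obtain ⟨a, ha⟩ := basis hne hW (f x).1 hx
    filter_upwards [eventually_ge_atTop a] with b hb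
    apply ha
    intro c hc
    have h1 := hrep b (f x)
    exact congrFun h1 ⟨c, lt_of_lt_of_le hc hb⟩

end Pool.Agent.Q215.GB
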