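import Pool.Agent.Q215.GB.Univ

/-!
Codes of `Σ⁰_ξ` sets and their evaluation with bounded quantifiers.
-/

set_option autoImplicit false

open Set Topology Filter Cardinal
open Pool.Agent.Results.MP_f4bae3_lc.SequentialLimits

namespace Pool.Agent.Q215.GB

variable {lam : Cardinal.{0}} {X : Type} [TopologicalSpace X]

lemma rk_mono : ∀ (c : Code lam X) (η ξ : Ordinal.{0}), η ≤ ξ → c.RkLe η → c.RkLe ξ
  | .base _ _, _, _, _, _ => trivial
  | .node _, _, _, h, ⟨ρ, hρ⟩ => ⟨ρ, fun b => ⟨(hρ b).1.trans_le h, (hρ b).2⟩⟩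

/-- every `Σ_ξ` set has a code of rank at most `ξ` -/
lemma exists_code (h0 : ℵ₀ < lam) (hN : Nice lam X) {ξ : Ordinal.{0}} {A : Set X}
    (hA : SigmaClass lam ξ A) : ∃ c : Code lam X, c.val = A ∧ c.RkLe ξ := by
  classical
  induction hA with
  | base U hU =>
    obtain ⟨J, hJ, V, hV, rfl⟩ := hN U hU
    obtain ⟨g, hg⟩ := exists_surj (mk_option_le h0 hJ) ⟨none⟩
    let cd : Option J → Code lam X := fun o =>
      o.elim (.base univ isClopen_univ) fun j => .base (V j)ᶜ (hV j).compl
    refine ⟨.node fun b => cd (g b), ?_, fun _ => 0, fun b => ⟨zero_lt_one, ?_⟩⟩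
    · show (⋃ b, (Code.val (cd (g b)))ᶜ) = ⋃ j, V j
      ext x
      simp only [mem_iUnion]
      constructor
      · rintro ⟨b, hb⟩
        rcases hgb : g b with _ | j
        · rw [hgb] at hb
          exact (hb (mem_univ x)).elim
        · rw [hgb] at hb
          exact ⟨j, not_not.1 hb⟩
      · rintro ⟨j, hj⟩
        obtain ⟨b, hb⟩ := hg (some j)
        refine ⟨b, ?_⟩
        rw [hb]
        exact fun hc => hc hj
    · have h : ∀ o : Option J, (cd o).RkLe 0 := by
        rintro (_ | j) <;> trivial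
      exact h (g b)
  | union ξ hξ I hI η A h1 h2 hA ih =>
    choose c hc1 hc2 using ih
    obtain ⟨g, hg⟩ := exists_surj (mk_option_le h0 hI) ⟨none⟩
    let cd : Option I → Code lam X := fun o => o.elim (.base univ isClopen_univ) c
    refine ⟨.node fun b => cd (g b), ?_, fun b => (g b).elim 0 η, fun b => ?_⟩
    · show (⋃ b, (Code.val (cd (g b)))ᶜ) = ⋃ i, A i
      ext x
      simp only [mem_iUnion]
      constructor
      · rintro ⟨b, hb⟩
        rcases hgb : g b with _ | i
        · rw [hgb] at hb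
          exact (hb (mem_univ x)).elim
        · rw [hgb] at hb
          refine ⟨i, ?_⟩
          have hb' : x ∉ (c i).val := hb
          rw [hc1] at hb'
          exact not_not.1 hb'
      · rintro ⟨i, hi⟩
        obtain ⟨b, hb⟩ := hg (some i)
        refine ⟨b, ?_⟩
        rw [hb]
        show x ∉ (c i).val
        rw [hc1]
        exact fun hc => hc hi
    · have h : ∀ o : Option I, o.elim 0 η < ξ ∧ (cd o).RkLe (o.elim 0 η) := by
        rintro (_ | i)
        · exact ⟨zero_lt_one.trans hξ, trivial⟩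
        · exact ⟨h2 i, hc2 i⟩
      exact h (g b)

lemma card_univ_le : #(lam.ord.ToType) ≤ lam := mk_K.le

lemma sigma_val (h0 : ℵ₀ < lam) (hN : Nice lam X) :
    ∀ (c : Code lam X) (η : Ordinal.{0}), c.RkLe η → SigmaClass lam (η + 1) c.val
  | .base V hV, η, _ => by
    refine sigma_mono hN ?_ (SigmaClass.base V hV.isOpen)
    exact le_add_self
  | .node g, η, ⟨ρ, hρ⟩ => by
    have h1 : ∀ b, SigmaClass lam (ρ b + 1) (g b).val := fun b =>
      sigma_val h0 hN (g b) (ρ b) (hρ b).2
    obtain ⟨b0⟩ := nonempty_L h0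
    have hpos : 0 < η := lt_of_le_of_lt zero_le (hρ b0).1
    have h1η : 1 < η + 1 := by
      have := Order.one_le_iff_pos.2 hpos
      exact lt_of_le_of_lt this (lt_add_one η)
    refine SigmaClass.union (η + 1) h1η lam.ord.ToType card_univ_le (fun b => ρ b + 1) _
      (fun b => le_add_self) (fun b => ?_) (fun b => ?_)
    · have : ρ b + 1 ≤ η := Order.add_one_le_of_lt (hρ b).1
      exact lt_of_le_of_lt this (lt_add_one η)
    · rw [compl_compl]
      exact h1 b

/-- at a good ordinal the bounded evaluation is correct -/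
lemma ev_iff {a : lam.ord.ToType} :
    ∀ (c : Code lam X) (x : X), c.Gd a x → (c.ev a x ↔ x ∈ c.val)
  | .base V hV, x, _ => Iff.rfl
  | .node g, x, ⟨h1, h2⟩ => by
    show (∃ b, b < a ∧ ¬ Code.ev a (g b) x) ↔ x ∈ ⋃ b, (Code.val (g b))ᶜ
    rw [mem_iUnion]
    constructor
    · rintro ⟨b, hb, hev⟩
      exact ⟨b, fun hc => hev ((ev_iff (g b) x (h1 b hb)).2 hc)⟩
    · rintro ⟨b, hb⟩
      obtain ⟨b', hb', hx⟩ := h2 ⟨b, hb⟩
      exact ⟨b', hb', fun hc => hx ((ev_iff (g b') x (h1 b' hb')).1 hc)⟩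

/-- the good ordinals form a closed set -/
lemma gd_closed {a b0 : lam.ord.ToType} (hb0 : b0 < a) :
    ∀ (c : Code lam X) (x : X), (∀ b, b < a → ∃ a', b < a' ∧ a' ≤ a ∧ c.Gd a' x) → c.Gd a x
  | .base V hV, x, _ => trivial
  | .node g, x, h => by
    refine ⟨fun b hb => ?_, fun hx => ?_⟩
    · refine gd_closed hb0 (g b) x fun b' hb' => ?_
      obtain ⟨a', h1, h2, h3⟩ := h (max b b') (max_lt hb hb')
      exact ⟨a', lt_of_le_of_lt (le_max_right _ _) h1, h2,
        h3.1 b (lt_of_le_of_lt (le_max_left _ _) h1)⟩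
    · obtain ⟨a', h1, h2, h3⟩ := h b0 hb0
      obtain ⟨b, hb, hxb⟩ := h3.2 hx
      exact ⟨b, hb.trans_le h2, hxb⟩

lemma mk_prod_lt {I J : Type} (h0 : ℵ₀ < lam) (hI : #I < lam) (hJ : #J < lam) :
    #(I × J) < lam := by
  have : #(I × J) = #I * #J := by simp
  rw [this]
  exact Cardinal.mul_lt_of_lt h0.le hI hJ

/-- for every code and point all ordinals closed under some function are good -/
lemma gd_fun (h0 : ℵ₀ < lam) (hreg : lam.IsRegular) :
    ∀ (c : Code lam X) (x : X), ∃ h : lam.ord.ToType → lam.ord.ToType,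
      ∀ a, (∃ b, b < a) → (∀ b, b < a → h b < a) → c.Gd a x
  | .base V hV, x => ⟨id, fun _ _ _ => trivial⟩
  | .node g, x => by
    classical
    choose h hh using fun b => gd_fun h0 hreg (g b) x
    obtain ⟨w, hw⟩ : ∃ w : lam.ord.ToType, (∃ b, x ∉ (g b).val) → x ∉ (g w).val := by
      by_cases hx : ∃ b, x ∉ (g b).val
      · obtain ⟨b, hb⟩ := hx
        exact ⟨b, fun _ => hb⟩
      · exact ⟨(nonempty_L h0).some, fun h => absurd h hx⟩
    choose H hH using fun b : lam.ord.ToType => bdd hreg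
      (mk_prod_lt h0 (mk_Iic_lt h0 b) (mk_Iic_lt h0 b)) (fun p : Iic b × Iic b => h p.1.1 p.2.1)
    refine ⟨fun b => max (H b) w, fun a hne ha => ⟨fun b hb => ?_, fun hx => ?_⟩⟩
    · refine hh b a hne fun b' hb' => ?_
      have h1 := hH (max b b') (⟨b, mem_Iic.2 (le_max_left _ _)⟩, ⟨b', mem_Iic.2 (le_max_right _ _)⟩)
      have h2 := ha (max b b') (max_lt hb hb')
      exact h1.trans (lt_of_le_of_lt (le_max_left _ _) h2)
    · obtain ⟨b, hb⟩ := hne
      exact ⟨w, lt_of_le_of_lt (le_max_right _ _) (ha b hb), hw hx⟩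

/-- the ordinals closed under a function are unbounded -/
lemma exists_closed (h0 : ℵ₀ < lam) (hreg : lam.IsRegular)
    (h : lam.ord.ToType → lam.ord.ToType) (b0 : lam.ord.ToType) :
    ∃ a, b0 < a ∧ ∀ b, b < a → h b < a := by
  choose H hH using fun b : lam.ord.ToType => bdd hreg (mk_Iic_lt h0 b) (fun p : Iic b => h p.1)
  have hnm : NoMaxOrder lam.ord.ToType := Cardinal.noMaxOrder h0.le
  choose s hs using fun b : lam.ord.ToType => exists_gt b
  let t : ℕ → lam.ord.ToType := fun n => Nat.rec b0 (fun _ b => max (H b) (s b)) n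
  have ht : ∀ n, t (n + 1) = max (H (t n)) (s (t n)) := fun n => rfl
  have hmk : #ℕ < lam := by rw [Cardinal.mk_nat]; exact h0
  obtain ⟨c, hc⟩ := bdd hreg hmk t
  have hex : ∃ a, ∀ n, t n < a := ⟨c, hc⟩
  let a := WellFounded.min (wellFounded_lt (α := lam.ord.ToType)) {a | ∀ n, t n < a} hex
  have ha : ∀ n, t n < a := WellFounded.min_mem _ _ hex
  refine ⟨a, ha 0, fun b hb => ?_⟩
  have h1 : ¬ ∀ n, t n < b := fun hcon =>
    (wellFounded_lt (α := lam.ord.ToType)).not_lt_min {a | ∀ n, t n < a} (x := b) hcon hb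
  push Not at h1
  obtain ⟨n, hn⟩ := h1
  have h2 := hH (t n) ⟨b, mem_Iic.2 hn⟩
  exact h2.trans (lt_of_le_of_lt (by rw [ht]; exact le_max_left _ _) (ha (n + 1)))

lemma add_two (η : Ordinal.{0}) : η + 2 = η + 1 + 1 := by
  rw [add_assoc, one_add_one_eq_two]

/-- goodness is decided at a level slightly above the rank -/
lemma sigma_gd (h0 : ℵ₀ < lam) (hN : Nice lam X) (a : lam.ord.ToType) :
    ∀ (c : Code lam X) (η : Ordinal.{0}), c.RkLe η →
      SigmaClass lam (η + 1 + 1) {x | c.Gd a x} ∧ SigmaClass lam (η + 1 + 1) {x | c.Gd a x}ᶜ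
  | .base V hV, η, _ => by
    have e : {x : X | Code.Gd a (.base V hV : Code lam X) x} = Set.univ := by
      ext x
      exact ⟨fun _ => mem_univ _, fun _ => trivial⟩
    rw [e, compl_univ]
    exact ⟨sigma_univ hN le_add_self, sigma_empty h0 le_add_self⟩
  | .node g, η, ⟨ρ, hρ⟩ => by
    have hle : η + 1 ≤ η + 1 + 1 := le_self_add
    have h1η : 1 ≤ η + 1 := le_add_self
    have hρη : ∀ b, ρ b + 1 ≤ η := fun b => Order.add_one_le_of_lt (hρ b).1
    have ih := fun b => sigma_gd h0 hN a (g b) (ρ b) (hρ b).2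
    have hle2 : ∀ b, ρ b + 1 + 1 ≤ η + 1 := fun b => by
      have := hρη b
      gcongr
    -- the first condition
    have hA := sigma_iInter' h0 h1η (I := {b // b < a}) card_le_of_subtype
      (A := fun b => {x | (g b.1).Gd a x}) fun b => sigma_mono hN (hle2 b.1) (ih b.1).2
    -- the second condition
    have hval : ∀ b, SigmaClass lam (η + 1) (g b).valᶜ := fun b => by
      have h3 := (sigma_val h0 hN (g b) (ρ b) (hρ b).2).compl h0
      exact sigma_mono hN (hle2 b) h3
    have hE1 : SigmaClass lam (η + 1) (⋃ b, (g b).valᶜ) :=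
      sigma_iUnion h0 h1η card_univ_le hval
    have hE2 : SigmaClass lam (η + 1) (⋃ b : {b // b < a}, (g b.1).valᶜ) :=
      sigma_iUnion h0 h1η card_le_of_subtype fun b => hval b.1
    have e : {x : X | Code.Gd a (.node g : Code lam X) x} =
        (⋂ b : {b // b < a}, {x | (g b.1).Gd a x}) ∩
          ((⋃ b, (g b).valᶜ)ᶜ ∪ ⋃ b : {b // b < a}, (g b.1).valᶜ) := by
      ext x
      simp only [mem_inter_iff, mem_iInter, mem_union, mem_compl_iff, mem_iUnion, Subtype.exists,
        exists_prop, Subtype.forall]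
      constructor
      · rintro ⟨h1, h2⟩
        refine ⟨h1, ?_⟩
        by_cases hx : ∃ b, x ∉ (g b).val
        · exact Or.inr (h2 hx)
        · exact Or.inl hx
      · rintro ⟨h1, h2⟩
        refine ⟨h1, fun hx => ?_⟩
        rcases h2 with h2 | h2
        · exact absurd hx h2
        · exact h2
    rw [e]
    constructor
    · exact sigma_inter h0 hN hA.1 (sigma_union h0 (hE1.compl h0) (sigma_mono hN hle hE2))
    · rw [compl_inter, compl_union, compl_compl]
      exact sigma_union h0 (sigma_mono hN hle hA.2)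
        (sigma_inter h0 hN (sigma_mono hN hle hE1) (hE2.compl h0))

end Pool.Agent.Q215.GB
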