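import Pool.Agent.Q215.GB.Sig

/-!
Decomposition of `Σ⁰_ξ` sets for limit `ξ`, cofinal sequences, bounded families of ordinals.
-/

set_option autoImplicit false

open Set Topology Filter Cardinal
open Pool.Agent.Results.MP_f4bae3_lc.SequentialLimits

namespace Pool.Agent.Q215.GB

variable {lam : Cardinal.{0}} {X : Type} [TopologicalSpace X]

/-- A set in `Σ_ξ`, `ξ` limit, is the increasing union of `Q ζ ∈ Σ_ζ`, `1 < ζ < ξ`. -/
lemma sigma_dec {ξ : Ordinal.{0}} (hlim : Order.IsSuccLimit ξ) (h1ξ : 1 < ξ) {A : Set X}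
    (hA : SigmaClass lam ξ A) : ∃ Q : Ordinal.{0} → Set X,
      (∀ ζ, 1 < ζ → SigmaClass lam ζ (Q ζ)) ∧ (∀ ζ ζ', ζ ≤ ζ' → Q ζ ⊆ Q ζ') ∧
      (∀ x ∈ A, ∃ ζ < ξ, x ∈ Q ζ) ∧ ∀ ζ, Q ζ ⊆ A := by
  obtain ⟨I, η, B, hI, h1, h2, h3, rfl⟩ := sigma_decomp h1ξ hA
  refine ⟨fun ζ => ⋃ i : {i // η i < ζ}, B i.1, fun ζ hζ => ?_, ?_, ?_, ?_⟩
  · exact SigmaClass.union ζ hζ {i // η i < ζ} ((Cardinal.mk_subtype_le _).trans hI)
      (fun i => η i.1) _ (fun i => h1 i.1) (fun i => i.2) (fun i => h3 i.1)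
  · intro ζ ζ' h x hx
    obtain ⟨i, hi⟩ := mem_iUnion.1 hx
    exact mem_iUnion.2 ⟨⟨i.1, i.2.trans_le h⟩, hi⟩
  · intro x hx
    obtain ⟨i, hi⟩ := mem_iUnion.1 hx
    exact ⟨η i + 1, hlim.add_one_lt (h2 i), mem_iUnion.2 ⟨⟨i, lt_add_one _⟩, hi⟩⟩
  · intro ζ x hx
    obtain ⟨i, hi⟩ := mem_iUnion.1 hx
    exact mem_iUnion.2 ⟨i.1, hi⟩

lemma one_lt_limit {ξ : Ordinal.{0}} (hlim : Order.IsSuccLimit ξ) : 1 < ξ := by
  have h := hlim.add_one_lt hlim.bot_lt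
  have e : (⊥ : Ordinal.{0}) + 1 = 1 := by
    rw [show (⊥ : Ordinal.{0}) = 0 from rfl, zero_add]
  rwa [e] at h

/-- a nondecreasing cofinal sequence of length `cof ξ` in a limit ordinal `ξ` -/
lemma exists_seq {ξ : Ordinal.{0}} (hlim : Order.IsSuccLimit ξ) :
    ∃ e : ξ.cof.ord.ToType → Ordinal.{0}, (∀ k, 1 < e k) ∧ (∀ k, e k < ξ) ∧
      (∀ k l, k ≤ l → e k ≤ e l) ∧ ∀ ζ < ξ, ∃ k, ζ ≤ e k := by
  have h2ξ : (2 : Ordinal.{0}) < ξ := by
    have := hlim.add_one_lt (one_lt_limit hlim)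
    rwa [one_add_one_eq_two] at this
  obtain ⟨s, hs, hs'⟩ := Ordinal.exists_ord_cof_eq ξ.ToType
  rw [Ordinal.cof_toType] at hs'
  have hty : (Ordinal.type fun x1 x2 : s => x1 < x2) =
      Ordinal.type fun x1 x2 : ξ.cof.ord.ToType => x1 < x2 := by
    rw [hs', Ordinal.type_toType]
  obtain ⟨iso⟩ := Ordinal.type_eq.1 hty
  refine ⟨fun k => max (Ordinal.ToType.mk.symm (iso.symm k : ξ.ToType) : Iio ξ).1 2, fun k => ?_,
    fun k => ?_, fun k l hkl => ?_, fun ζ hζ => ?_⟩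
  · exact lt_max_of_lt_right one_lt_two
  · exact max_lt (Ordinal.ToType.mk.symm (iso.symm k : ξ.ToType) : Iio ξ).2 h2ξ
  · refine max_le_max ?_ le_rfl
    rcases hkl.lt_or_eq with h | rfl
    · have h1 : iso.symm k < iso.symm l := iso.symm.map_rel_iff.2 h
      have h2 : (iso.symm k : ξ.ToType) ≤ (iso.symm l : ξ.ToType) := h1.le
      exact Ordinal.ToType.mk.symm.monotone h2
    · exact le_rfl
  · obtain ⟨u, hu, htu⟩ := hs (Ordinal.ToType.mk ⟨ζ, hζ⟩)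
    refine ⟨iso ⟨u, hu⟩, le_max_of_le_left ?_⟩
    rw [RelIso.symm_apply_apply]
    have h1 : Ordinal.ToType.mk.symm (Ordinal.ToType.mk (⟨ζ, hζ⟩ : Iio ξ)) ≤
        Ordinal.ToType.mk.symm u := Ordinal.ToType.mk.symm.monotone htu
    rw [OrderIso.symm_apply_apply] at h1
    exact h1

/-- families of fewer than `lam` elements are bounded -/
lemma bdd (hreg : lam.IsRegular) {I : Type} (hI : #I < lam) (g : I → lam.ord.ToType) :
    ∃ c, ∀ i, g i < c := by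
  by_contra hcon
  push Not at hcon
  have hcof : IsCofinal (range g) := fun c => by
    obtain ⟨b, hb⟩ := hcon c
    exact ⟨g b, ⟨b, rfl⟩, hb⟩
  have h1 : lam ≤ #(range g) := by
    have := Order.cof_le hcof
    rwa [Ordinal.cof_toType, hreg.cof_ord] at this
  exact absurd (h1.trans Cardinal.mk_range_le) (not_le.2 hI)

/-- the pigeonhole principle -/
lemma pigeon (hreg : lam.IsRegular) {I : Type} (hI : #I < lam)
    (R : lam.ord.ToType → I → Prop) (a0 : lam.ord.ToType) (h : ∀ a, a0 ≤ a → ∃ i, R a i) :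
    ∃ i, ∀ γ, ∃ a, γ ≤ a ∧ R a i := by
  by_contra hcon
  push Not at hcon
  choose g hg using hcon
  obtain ⟨c, hc⟩ := bdd hreg hI g
  obtain ⟨i, hi⟩ := h (max a0 c) (le_max_left _ _)
  exact hg i (max a0 c) ((hc i).le.trans (le_max_right _ _)) hi

lemma mk_Iio_lt (a : lam.ord.ToType) : #(Iio a) < lam := Cardinal.mk_Iio_toType_ord_lt a

lemma mk_Iic_lt (h0 : ℵ₀ < lam) (a : lam.ord.ToType) : #(Iic a) < lam := by
  have hnm : NoMaxOrder lam.ord.ToType := Cardinal.noMaxOrder h0.le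
  obtain ⟨b, hb⟩ := exists_gt a
  refine lt_of_le_of_lt (Cardinal.mk_le_mk_of_subset (fun c hc => ?_)) (mk_Iio_lt b)
  exact lt_of_le_of_lt hc hb

lemma mk_K {κ : Cardinal.{0}} : #(κ.ord.ToType) = κ := by
  rw [Cardinal.mk_toType, Cardinal.card_ord]

end Pool.Agent.Q215.GB
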