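import Pool.Agent.Results.MP_f4bae3_lc.SequentialLimits

/-!
Definitions for the second question on the generalized Baire hierarchy of functions.
-/

set_option autoImplicit false

open Set Topology Filter Cardinal
open Pool.Agent.Results.MP_f4bae3_lc.SequentialLimits

namespace Pool.Agent.Q215.GB

section Classes

variable {X Y : Type} [TopologicalSpace X] [TopologicalSpace Y]

/-- `f ∈ M_ξ(X, Y)`: preimages of open sets are `Σ⁰_ξ`. -/
def Meas (lam : Cardinal.{0}) (ξ : Ordinal.{0}) (f : X → Y) : Prop :=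
  ∀ U : Set Y, IsOpen U → SigmaClass lam ξ (f ⁻¹' U)

/-- `f ∈ M_{<ξ}(X, Y)`. -/
def MeasLt (lam : Cardinal.{0}) (ξ : Ordinal.{0}) (f : X → Y) : Prop :=
  ∃ η : Ordinal.{0}, 1 ≤ η ∧ η < ξ ∧ Meas lam η f

/-- `f` is in `\widehat{lim}^ξ_κ M_{<ξ}(X, Y)`. -/
def HatLim (lam κ : Cardinal.{0}) (ξ : Ordinal.{0}) (f : X → Y) : Prop :=
  ∃ (G : κ.ord.ToType → X → Y) (C : κ.ord.ToType → Set X),
    (∀ i, MeasLt lam ξ (G i)) ∧ (∀ i, SigmaClass lam ξ (C i)) ∧ (∀ i j, i ≤ j → C i ⊆ C j) ∧
    (∀ x, ∃ i, x ∈ C i) ∧ ∀ i j, i ≤ j → ∀ x ∈ C i, G j x = f x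

/-- `f` is an eventually constant `κ`-limit of functions in `M_{<ξ}(X, Y)`. -/
def EvLim (lam κ : Cardinal.{0}) (ξ : Ordinal.{0}) (f : X → Y) : Prop :=
  ∃ G : κ.ord.ToType → X → Y,
    (∀ i, MeasLt lam ξ (G i)) ∧ ∀ x, ∃ i, ∀ j, i ≤ j → G j x = f x

/-- `f` is a `λ`-limit of functions with the property `P`. -/
def LamLim (lam : Cardinal.{0}) (P : (X → Y) → Prop) (f : X → Y) : Prop :=
  ∃ F : lam.ord.ToType → X → Y, (∀ a, P (F a)) ∧
    ∀ x, Tendsto (fun a => F a x) atTop (𝓝 (f x))

/-- every open set is the union of at most `lam` clopen sets -/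
def Nice (lam : Cardinal.{0}) (X : Type) [TopologicalSpace X] : Prop :=
  ∀ U : Set X, IsOpen U →
    ∃ J : Type, #J ≤ lam ∧ ∃ V : J → Set X, (∀ j, IsClopen (V j)) ∧ U = ⋃ j, V j

end Classes

/-! ### Codes -/

section Codes

/-- Codes of sets: clopen sets, and the union of the complements of the sets with the codes
`g b`, `b < lam`. -/
inductive Code (lam : Cardinal.{0}) (X : Type) [TopologicalSpace X] : Type
  | base (V : Set X) (hV : IsClopen V) : Code lam X
  | node (g : lam.ord.ToType → Code lam X) : Code lam X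

variable {lam : Cardinal.{0}} {X : Type} [TopologicalSpace X]

/-- the set with the code -/
def Code.val : Code lam X → Set X
  | .base V _ => V
  | .node g => ⋃ b, (Code.val (g b))ᶜ

/-- the rank of the code is at most `η` -/
def Code.RkLe : Code lam X → Ordinal.{0} → Prop
  | .base _ _, _ => True
  | .node g, η => ∃ ρ : lam.ord.ToType → Ordinal.{0}, ∀ b, ρ b < η ∧ Code.RkLe (g b) (ρ b)

/-- the evaluation with all quantifiers bounded by `a` -/
def Code.ev (a : lam.ord.ToType) : Code lam X → X → Prop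
  | .base V _, x => x ∈ V
  | .node g, x => ∃ b, b < a ∧ ¬ Code.ev a (g b) x

/-- `a` is good for the code at `x`: below `a` there are witnesses for all existential
quantifiers which are true, along the indices below `a` -/
def Code.Gd (a : lam.ord.ToType) : Code lam X → X → Prop
  | .base _ _, _ => True
  | .node g, x => (∀ b, b < a → Code.Gd a (g b) x) ∧
      ((∃ b, x ∉ Code.val (g b)) → ∃ b, b < a ∧ x ∉ Code.val (g b))

end Codes

end Pool.Agent.Q215.GB
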