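import Pool.Agent.Q215.GB.Dec

/-!
`lam`-limits of functions in `\widehat{lim}^ξ_{cof ξ} M_{<ξ}` are in `M_ξ`.
-/

set_option autoImplicit false

open Set Topology Filter Cardinal
open Pool.Agent.Results.MP_f4bae3_lc.SequentialLimits

namespace Pool.Agent.Q215.GB

variable {lam : Cardinal.{0}}

theorem fwd (h0 : ℵ₀ < lam) (hreg : lam.IsRegular) (hpow : 2 ^< lam = lam)
    {X Y : Set (GSpace lam)} {ξ : Ordinal.{0}} (hlim : Order.IsSuccLimit ξ)
    (hcof : ξ.cof < lam) {f : X → Y} (hf : LamLim lam (HatLim lam ξ.cof ξ) f) :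
    Meas lam ξ f := by
  classical
  have hN : Nice lam X := nice_sub h0 hreg hpow X
  obtain ⟨F, hF, hlimF⟩ := hf
  choose G C hG hC hCm hCu hGF using hF
  choose η hη1 hη2 hηM using hG
  choose Q hQ1 hQ2 hQ3 hQ4 using fun a i => sigma_dec hlim (one_lt_limit hlim) (hC a i)
  obtain ⟨e, he1, he2, he3, he4⟩ := exists_seq hlim
  have hne := nonempty_L h0
  intro U hU
  obtain ⟨J, hJ, V, hV, rfl⟩ := pieces h0 hreg hpow hU
  rw [preimage_iUnion]
  refine sigma_iUnion h0 (one_lt_limit hlim).le hJ fun j => ?_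
  set W := V j with hW
  have hWc : IsClopen W := hV j
  let K := ξ.cof.ord.ToType
  let S : K × K → Set X := fun p => {x | ∀ γ, ∃ a, γ ≤ a ∧
    x ∈ (if η a p.1 ≤ e p.2 then Q a p.1 (e p.2) ∩ (G a p.1) ⁻¹' W else ∅)}
  have hcard : #(K × K) < lam := by
    have hK : #K = ξ.cof := mk_K
    have : #(K × K) = #K * #K := by simp
    rw [this, hK]
    exact Cardinal.mul_lt_of_lt h0.le hcof hcof
  have key : f ⁻¹' W = ⋃ p, S p := by
    ext x
    rw [mem_iUnion]
    constructor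
    · intro hx
      have h1 := (hlimF x).eventually (hWc.isOpen.mem_nhds hx)
      obtain ⟨a0, ha0⟩ := eventually_atTop.1 h1
      have h2 : ∀ a, a0 ≤ a → ∃ p : K × K,
          x ∈ (if η a p.1 ≤ e p.2 then Q a p.1 (e p.2) ∩ (G a p.1) ⁻¹' W else ∅) := by
        intro a ha
        obtain ⟨i, hi⟩ := hCu a x
        obtain ⟨ζ, hζ, hxζ⟩ := hQ3 a i x hi
        obtain ⟨k, hk⟩ := he4 (max ζ (η a i)) (max_lt hζ (hη2 a i))
        refine ⟨⟨i, k⟩, ?_⟩
        show x ∈ (if η a i ≤ e k then Q a i (e k) ∩ (G a i) ⁻¹' W else ∅)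
        rw [if_pos ((le_max_right _ _).trans hk)]
        refine ⟨hQ2 a i ζ (e k) ((le_max_left _ _).trans hk) hxζ, ?_⟩
        show G a i x ∈ W
        rw [hGF a i i le_rfl x hi]
        exact ha0 a ha
      exact pigeon hreg hcard _ a0 h2
    · rintro ⟨⟨i, k⟩, hx⟩
      by_contra hcon
      have h1 := (hlimF x).eventually (hWc.compl.isOpen.mem_nhds hcon)
      obtain ⟨a0, ha0⟩ := eventually_atTop.1 h1
      obtain ⟨a, ha, hxa⟩ := hx a0
      change x ∈ (if η a i ≤ e k then Q a i (e k) ∩ (G a i) ⁻¹' W else ∅) at hxa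
      split_ifs at hxa with hle
      · have h3 : G a i x ∈ W := hxa.2
        rw [hGF a i i le_rfl x (hQ4 a i (e k) hxa.1)] at h3
        exact ha0 a ha h3
      · exact hxa
  rw [key]
  refine sigma_iUnion h0 (one_lt_limit hlim).le hcard.le fun p => ?_
  have h1e : 1 ≤ e p.2 := (he1 p.2).le
  have hlow : SigmaClass lam (e p.2 + 1 + 1) (S p) := by
    refine sigma_cofinal h0 h1e fun a => ?_
    split_ifs with hle
    · exact sigma_inter h0 hN (hQ1 a p.1 _ (he1 p.2))
        (sigma_mono hN hle (hηM a p.1 W hWc.isOpen))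
    · exact sigma_empty h0 h1e
  exact sigma_mono hN (hlim.add_one_lt (hlim.add_one_lt (he2 p.2))).le hlow

end Pool.Agent.Q215.GB
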