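import Pool.Agent.Q215.GB.Defs

/-!
Closure properties of the classes `Σ⁰_ξ`.
-/

set_option autoImplicit false

open Set Topology Filter Cardinal
open Pool.Agent.Results.MP_f4bae3_lc.SequentialLimits

namespace Pool.Agent.Q215.GB

variable {lam : Cardinal.{0}} {X : Type} [TopologicalSpace X]

lemma nice_sub (h0 : ℵ₀ < lam) (hreg : lam.IsRegular) (hpow : 2 ^< lam = lam)
    (T : Set (GSpace lam)) : Nice lam T := fun _ hU => pieces h0 hreg hpow hU

lemma sigma_preimage {X' : Type} [TopologicalSpace X'] {g : X' → X} (hg : Continuous g)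
    {ξ : Ordinal.{0}} {A : Set X} (hA : SigmaClass lam ξ A) : SigmaClass lam ξ (g ⁻¹' A) := by
  induction hA with
  | base U hU => exact SigmaClass.base _ (hU.preimage hg)
  | union ξ hξ I hI η A h1 h2 hA ih =>
    rw [preimage_iUnion]
    exact SigmaClass.union ξ hξ I hI η _ h1 h2 fun i => by
      rw [← preimage_compl]; exact ih i

lemma nice_full (h0 : ℵ₀ < lam) (hreg : lam.IsRegular) (hpow : 2 ^< lam = lam) :
    Nice lam (GSpace lam) := by
  intro U hU
  obtain ⟨J, hJ, V, hV, hUV⟩ := pieces h0 hreg hpow (T := univ)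
    (U := Subtype.val ⁻¹' U) (hU.preimage continuous_subtype_val)
  have hc : Continuous (fun x : GSpace lam => (⟨x, mem_univ x⟩ : (univ : Set (GSpace lam)))) :=
    Continuous.subtype_mk continuous_id _
  refine ⟨J, hJ, fun j => (fun x : GSpace lam => (⟨x, mem_univ x⟩ : (univ : Set (GSpace lam)))) ⁻¹'
    (V j), fun j => (hV j).preimage hc, ?_⟩
  have e : U = (fun x : GSpace lam => (⟨x, mem_univ x⟩ : (univ : Set (GSpace lam)))) ⁻¹'
      (Subtype.val ⁻¹' U) := rfl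
  rw [e, hUV, preimage_iUnion]

lemma isOpen_of_sigma_one {A : Set X} (hA : SigmaClass lam 1 A) : IsOpen A := by
  generalize h1 : (1 : Ordinal.{0}) = ξ at hA
  cases hA with
  | base U hU => exact hU
  | union _ hξ => exact absurd h1 hξ.ne

lemma sigma_decomp {ξ : Ordinal.{0}} (hξ : 1 < ξ) {A : Set X} (hA : SigmaClass lam ξ A) :
    ∃ (I : Type) (η : I → Ordinal.{0}) (B : I → Set X), #I ≤ lam ∧ (∀ i, 1 ≤ η i) ∧
      (∀ i, η i < ξ) ∧ (∀ i, SigmaClass lam (η i) (B i)ᶜ) ∧ A = ⋃ i, B i := by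
  cases hA with
  | base U hU => exact absurd hξ (lt_irrefl _)
  | union _ hξ I hI η B h1 h2 hB => exact ⟨I, η, B, hI, h1, h2, hB, rfl⟩

lemma sigma_mono (hN : Nice lam X) {η ξ : Ordinal.{0}} (h : η ≤ ξ) {A : Set X}
    (hA : SigmaClass lam η A) : SigmaClass lam ξ A := by
  rcases h.lt_or_eq with hlt | rfl
  · cases hA with
    | base U hU =>
      obtain ⟨J, hJ, V, hV, hUV⟩ := hN A hU
      rw [hUV]
      exact SigmaClass.union ξ hlt J hJ (fun _ => 1) V (fun _ => le_rfl) (fun _ => hlt)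
        fun j => SigmaClass.base _ (hV j).compl.isOpen
    | union _ hη I hI η' B h1 h2 hB =>
      exact SigmaClass.union ξ (hη.trans hlt) I hI η' B h1 (fun i => (h2 i).trans hlt) hB
  · exact hA

lemma sigma_iUnion (h0 : ℵ₀ < lam) {ξ : Ordinal.{0}} (hξ : 1 ≤ ξ) {I : Type} (hI : #I ≤ lam)
    {A : I → Set X} (hA : ∀ i, SigmaClass lam ξ (A i)) : SigmaClass lam ξ (⋃ i, A i) := by
  rcases hξ.lt_or_eq with hlt | rfl
  · choose J η B hJ h1 h2 h3 h4 using fun i => sigma_decomp hlt (hA i)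
    have e : (⋃ i, A i) = ⋃ p : Σ i, J i, B p.1 p.2 := by
      rw [iUnion_sigma]
      exact iUnion_congr h4
    rw [e]
    refine SigmaClass.union ξ hlt (Σ i, J i) ?_ (fun p => η p.1 p.2) _ (fun p => h1 p.1 p.2)
      (fun p => h2 p.1 p.2) (fun p => h3 p.1 p.2)
    calc #(Σ i, J i) = Cardinal.sum fun i => #(J i) := Cardinal.mk_sigma _
      _ ≤ Cardinal.sum fun _ : I => lam := Cardinal.sum_le_sum _ _ hJ
      _ = #I * lam := by simp
      _ ≤ lam * lam := mul_le_mul_left hI lam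
      _ = lam := Cardinal.mul_eq_self h0.le
  · exact SigmaClass.base _ (isOpen_iUnion fun i => isOpen_of_sigma_one (hA i))

lemma sigma_empty (h0 : ℵ₀ < lam) {ξ : Ordinal.{0}} (hξ : 1 ≤ ξ) :
    SigmaClass lam ξ (∅ : Set X) := by
  have := sigma_iUnion (X := X) h0 hξ (I := PEmpty) (by simp) (A := fun i => i.elim)
    (fun i => i.elim)
  simpa using this

lemma sigma_union (h0 : ℵ₀ < lam) {ξ : Ordinal.{0}} {A B : Set X} (hA : SigmaClass lam ξ A)
    (hB : SigmaClass lam ξ B) : SigmaClass lam ξ (A ∪ B) := by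
  rw [union_eq_iUnion]
  refine sigma_iUnion h0 hA.one_le ?_ ?_
  · exact (Cardinal.mk_lt_aleph0.trans h0).le
  · rintro (_ | _)
    · exact hB
    · exact hA

lemma sigma_inter (h0 : ℵ₀ < lam) (hN : Nice lam X) {ξ : Ordinal.{0}} {A B : Set X}
    (hA : SigmaClass lam ξ A) (hB : SigmaClass lam ξ B) : SigmaClass lam ξ (A ∩ B) := by
  rcases hA.one_le.lt_or_eq with hlt | rfl
  · obtain ⟨I, η, P, hI, h1, h2, h3, rfl⟩ := sigma_decomp hlt hA
    obtain ⟨J, η', Q, hJ, h1', h2', h3', rfl⟩ := sigma_decomp hlt hB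
    have e : (⋃ i, P i) ∩ (⋃ j, Q j) = ⋃ p : I × J, P p.1 ∩ Q p.2 := by
      ext x
      simp only [mem_inter_iff, mem_iUnion, Prod.exists]
      constructor
      · rintro ⟨⟨i, hi⟩, ⟨j, hj⟩⟩
        exact ⟨i, j, hi, hj⟩
      · rintro ⟨i, j, hi, hj⟩
        exact ⟨⟨i, hi⟩, ⟨j, hj⟩⟩
    rw [e]
    refine SigmaClass.union ξ hlt (I × J) ?_ (fun p => max (η p.1) (η' p.2)) _
      (fun p => le_max_of_le_left (h1 p.1)) (fun p => max_lt (h2 p.1) (h2' p.2)) fun p => ?_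
    · calc #(I × J) = #I * #J := by simp
        _ ≤ lam * lam := mul_le_mul' hI hJ
        _ = lam := Cardinal.mul_eq_self h0.le
    · rw [compl_inter]
      exact sigma_union h0 (sigma_mono hN (le_max_left _ _) (h3 p.1))
        (sigma_mono hN (le_max_right _ _) (h3' p.2))
  · exact SigmaClass.base _ ((isOpen_of_sigma_one hA).inter (isOpen_of_sigma_one hB))

lemma sigma_univ {ξ : Ordinal.{0}} (hN : Nice lam X) (hξ : 1 ≤ ξ) :
    SigmaClass lam ξ (univ : Set X) :=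
  sigma_mono hN hξ (SigmaClass.base _ isOpen_univ)

lemma sigma_iInter (h0 : ℵ₀ < lam) {ξ : Ordinal.{0}} (hξ : 1 ≤ ξ) {I : Type} (hI : #I ≤ lam)
    {A : I → Set X} (hA : ∀ i, SigmaClass lam ξ (A i)) :
    SigmaClass lam (ξ + 1 + 1) (⋂ i, A i) := by
  have h1 := (sigma_iUnion h0 (hξ.trans le_self_add) hI fun i => (hA i).compl h0).compl h0
  rwa [compl_iUnion, iInter_congr fun i => compl_compl (A i)] at h1

/-- intersections of sets whose complements are `Σ_ξ` -/
lemma sigma_iInter' (h0 : ℵ₀ < lam) {ξ : Ordinal.{0}} (hξ : 1 ≤ ξ) {I : Type} (hI : #I ≤ lam)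
    {A : I → Set X} (hA : ∀ i, SigmaClass lam ξ (A i)ᶜ) :
    SigmaClass lam (ξ + 1) (⋂ i, A i) ∧ SigmaClass lam ξ (⋂ i, A i)ᶜ := by
  have h1 := sigma_iUnion h0 hξ hI hA
  rw [← compl_iInter] at h1
  refine ⟨?_, h1⟩
  have := h1.compl h0
  rwa [compl_compl] at this

lemma card_le_of_subtype {lam : Cardinal.{0}} {p : lam.ord.ToType → Prop} : #{a // p a} ≤ lam := by
  refine (Cardinal.mk_subtype_le _).trans ?_
  rw [Cardinal.mk_toType, Cardinal.card_ord]

/-- the set of the points which are in `C a` for cofinally many `a` -/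
lemma sigma_cofinal (h0 : ℵ₀ < lam) {ξ : Ordinal.{0}} (hξ : 1 ≤ ξ)
    {C : lam.ord.ToType → Set X} (hC : ∀ a, SigmaClass lam ξ (C a)) :
    SigmaClass lam (ξ + 1 + 1) {x | ∀ γ, ∃ a, γ ≤ a ∧ x ∈ C a} := by
  have e : {x | ∀ γ, ∃ a, γ ≤ a ∧ x ∈ C a} = ⋂ γ, ⋃ a : {a // γ ≤ a}, C a.1 := by
    ext x
    simp only [mem_setOf_eq, mem_iInter, mem_iUnion, Subtype.exists, exists_prop]
  rw [e]
  refine sigma_iInter h0 hξ ?_ fun γ => sigma_iUnion h0 hξ card_le_of_subtype fun a => hC a.1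
  rw [Cardinal.mk_toType, Cardinal.card_ord]

end Pool.Agent.Q215.GB
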