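import Pool.Agent.Q215.GB.Dec

/-!
Universal sets: the hierarchy of the `Σ⁰_ξ` sets of the generalized Baire space does not collapse.
-/

set_option autoImplicit false

open Set Topology Filter Cardinal
open Pool.Agent.Results.MP_f4bae3_lc.SequentialLimits

namespace Pool.Agent.Q215.GB

variable {lam : Cardinal.{0}}

lemma isOpen_of_N {U : Set (GSpace lam)} (h : ∀ x ∈ U, ∃ a, N x a ⊆ U) : IsOpen U := by
  choose a ha using h
  have e : U = ⋃ x : U, N x.1 (a x.1 x.2) := by
    ext x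
    constructor
    · intro hx
      exact mem_iUnion.2 ⟨⟨x, hx⟩, mem_N_self x _⟩
    · intro hx
      obtain ⟨y, hy⟩ := mem_iUnion.1 hx
      exact ha y.1 y.2 hy
  rw [e]
  exact isOpen_iUnion fun x => isOpen_N _ _

lemma isOpen_coord (h0 : ℵ₀ < lam) (a d : lam.ord.ToType) :
    IsOpen {y : GSpace lam | y a = d} := by
  have hnm : NoMaxOrder lam.ord.ToType := Cardinal.noMaxOrder h0.le
  obtain ⟨b, hb⟩ := exists_gt a
  refine isOpen_of_N fun x hx => ⟨b, fun y hy => ?_⟩
  show y a = d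
  rw [hy a hb]
  exact hx

lemma isClopen_coord (h0 : ℵ₀ < lam) (a d : lam.ord.ToType) :
    IsClopen {y : GSpace lam | y a = d} := by
  refine ⟨⟨?_⟩, isOpen_coord h0 a d⟩
  have e : {y : GSpace lam | y a = d}ᶜ = ⋃ d' : {d' // d' ≠ d}, {y : GSpace lam | y a = d'.1} := by
    ext y
    simp only [mem_compl_iff, mem_ofPred_eq, mem_iUnion, Subtype.exists, exists_prop,
      exists_eq_right']
  rw [e]
  exact isOpen_iUnion fun d' => isOpen_coord h0 a d'.1

/-- the composition with a map of the indices -/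
def shf (s : lam.ord.ToType → lam.ord.ToType) : GSpace lam → GSpace lam := fun c b => c (s b)

/-- shifts are continuous -/
lemma continuous_shift (hreg : lam.IsRegular) (s : lam.ord.ToType → lam.ord.ToType) :
    Continuous (shf s) := by
  refine continuous_generateFrom_iff.2 ?_
  rintro _ ⟨y, a, rfl⟩
  obtain ⟨γ, hγ⟩ := bdd hreg (mk_Iio_lt a) (fun b : Iio a => s b.1)
  refine isOpen_of_N fun c hc => ⟨γ, fun c' hc' => ?_⟩
  intro b hb
  have h1 : c' (s b) = c (s b) := hc' (s b) (hγ ⟨b, hb⟩)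
  show c' (s b) = y b
  rw [h1]
  exact hc b hb

/-- there is a universal `Σ_ξ` set -/
def UnivAt (lam : Cardinal.{0}) (ξ : Ordinal.{0}) : Prop :=
  ∃ V : GSpace lam → Set (GSpace lam), (∀ A, SigmaClass lam ξ A → ∃ c, V c = A) ∧
    ∀ p q : GSpace lam → GSpace lam, Continuous p → Continuous q →
      SigmaClass lam ξ {x | q x ∈ V (p x)}

lemma exists_surj {I : Type} (hI : #I ≤ lam) (hne : Nonempty I) :
    ∃ φ : lam.ord.ToType → I, Function.Surjective φ := by
  have hle : #I ≤ #(lam.ord.ToType) := by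
    rw [mk_K]; exact hI
  obtain ⟨ψ⟩ := hle
  exact ⟨Function.invFun ψ, Function.invFun_surjective ψ.injective⟩

lemma mk_option_le (h0 : ℵ₀ < lam) {I : Type} (hI : #I ≤ lam) : #(Option I) ≤ lam := by
  rw [Cardinal.mk_option]
  exact Cardinal.add_le_of_le h0.le hI ((Cardinal.one_lt_aleph0.trans h0).le)

lemma univ_one (h0 : ℵ₀ < lam) (hreg : lam.IsRegular) (hpow : 2 ^< lam = lam) :
    UnivAt lam 1 := by
  classical
  obtain ⟨b, hb⟩ := exists_surj (I := Option (Σ a : lam.ord.ToType, (Iio a → lam.ord.ToType)))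
    (mk_option_le h0 (card_sigma h0 hreg hpow)) ⟨none⟩
  let B : Option (Σ a : lam.ord.ToType, (Iio a → lam.ord.ToType)) → Set (GSpace lam) :=
    fun o => o.elim ∅ Bs
  have hB : ∀ o, IsOpen (B o) := by
    rintro (_ | p)
    · exact isOpen_empty
    · obtain ⟨x, hx⟩ := exists_N p
      show IsOpen (Bs p)
      rw [hx]
      exact isOpen_N _ _
  refine ⟨fun c => ⋃ a, B (b (c a)), fun A hA => ?_, fun p q hp hq => ?_⟩
  · have hAo := isOpen_of_sigma_one hA
    obtain ⟨d0, hd0⟩ := hb none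
    refine ⟨fun a => if ∃ p, b a = some p ∧ Bs p ⊆ A then a else d0, ?_⟩
    ext x
    simp only [mem_iUnion]
    constructor
    · rintro ⟨a, ha⟩
      split_ifs at ha with h
      · obtain ⟨p, hp, hpA⟩ := h
        rw [hp] at ha
        exact hpA ha
      · rw [hd0] at ha
        exact ha.elim
    · intro hx
      obtain ⟨γ, hγ⟩ := basis (nonempty_L h0) hAo x hx
      obtain ⟨a, ha⟩ := hb (some ⟨γ, fun b => x b⟩)
      have hsub : Bs (⟨γ, fun b => x b⟩ : Σ a : lam.ord.ToType, (Iio a → lam.ord.ToType)) ⊆ A :=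
        fun z hz => hγ fun b hb => hz ⟨b, hb⟩
      refine ⟨a, ?_⟩
      rw [if_pos ⟨_, ha, hsub⟩, ha]
      intro b'
      rfl
  · refine SigmaClass.base _ ?_
    have e : {x | q x ∈ ⋃ a, B (b (p x a))} =
        ⋃ a, ⋃ d, (p ⁻¹' {y | y a = d}) ∩ q ⁻¹' (B (b d)) := by
      ext x
      simp only [mem_ofPred_eq, mem_iUnion, mem_inter_iff, mem_preimage]
      constructor
      · rintro ⟨a, ha⟩
        exact ⟨a, p x a, rfl, ha⟩
      · rintro ⟨a, d, hd, hx⟩
        exact ⟨a, by rw [hd]; exact hx⟩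
    rw [e]
    exact isOpen_iUnion fun a => isOpen_iUnion fun d =>
      ((isOpen_coord h0 a d).preimage hp).inter ((hB _).preimage hq)

lemma exists_enum {ξ : Ordinal.{0}} (h1 : 1 < ξ) (hξ : ξ < (Order.succ lam).ord) :
    ∃ e : lam.ord.ToType → Ordinal.{0}, (∀ a, 1 ≤ e a ∧ e a < ξ) ∧
      ∀ η, 1 ≤ η → η < ξ → ∃ a, e a = η := by
  classical
  have hcard : #(ξ.ToType) ≤ lam := by
    rw [Cardinal.mk_toType]
    exact Order.lt_succ_iff.1 (Cardinal.lt_ord.1 hξ)
  have hne : Nonempty ξ.ToType := ⟨Ordinal.ToType.mk ⟨1, h1⟩⟩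
  obtain ⟨φ, hφ⟩ := exists_surj hcard hne
  refine ⟨fun a => if 1 ≤ (Ordinal.ToType.mk.symm (φ a) : Iio ξ).1 then
    (Ordinal.ToType.mk.symm (φ a) : Iio ξ).1 else 1, fun a => ?_, fun η h1η hη => ?_⟩
  · dsimp only
    split_ifs with h
    · exact ⟨h, (Ordinal.ToType.mk.symm (φ a) : Iio ξ).2⟩
    · exact ⟨le_rfl, h1⟩
  · obtain ⟨a, ha⟩ := hφ (Ordinal.ToType.mk ⟨η, hη⟩)
    refine ⟨a, ?_⟩
    dsimp only
    rw [ha, OrderIso.symm_apply_apply, if_pos h1η]

lemma exists_pair (h0 : ℵ₀ < lam) :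
    ∃ ι : (lam.ord.ToType × lam.ord.ToType) ⊕ lam.ord.ToType → lam.ord.ToType,
      Function.Injective ι := by
  have h : #((lam.ord.ToType × lam.ord.ToType) ⊕ lam.ord.ToType) ≤ #(lam.ord.ToType) := by
    have hL : #(lam.ord.ToType) = lam := mk_K
    have h1 : #((lam.ord.ToType × lam.ord.ToType) ⊕ lam.ord.ToType) =
        #(lam.ord.ToType) * #(lam.ord.ToType) + #(lam.ord.ToType) := by simp
    rw [h1, hL, Cardinal.mul_eq_self h0.le, Cardinal.add_eq_self h0.le]
  obtain ⟨ψ⟩ := h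
  exact ⟨ψ, ψ.injective⟩

theorem universal (h0 : ℵ₀ < lam) (hreg : lam.IsRegular) (hpow : 2 ^< lam = lam)
    (ξ : Ordinal.{0}) : 1 ≤ ξ → ξ < (Order.succ lam).ord → UnivAt lam ξ := by
  classical
  induction ξ using WellFoundedLT.induction with
  | ind ξ ih =>
  intro h1 hξ
  rcases h1.lt_or_eq with h1 | rfl
  · obtain ⟨e, he, hes⟩ := exists_enum h1 hξ
    obtain ⟨ι, hι⟩ := exists_pair h0
    have hN := nice_full h0 hreg hpow
    have ih' : ∀ a, UnivAt lam (e a) := fun a => ih (e a) (he a).2 (he a).1 ((he a).2.trans hξ)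
    choose V hV1 hV2 using ih'
    have hneL : Nonempty lam.ord.ToType := nonempty_L h0
    have hneS : Nonempty ((lam.ord.ToType × lam.ord.ToType) ⊕ lam.ord.ToType) :=
      ⟨Sum.inr hneL.some⟩
    let sh : lam.ord.ToType → GSpace lam → GSpace lam := fun a => shf fun b => ι (Sum.inl (a, b))
    have hsh : ∀ a, Continuous (sh a) := fun a => continuous_shift hreg _
    refine ⟨fun c => ⋃ a, (V (c (ι (Sum.inr a))) (sh a c))ᶜ, fun A hA => ?_, fun p q hp hq => ?_⟩
    · obtain ⟨J, η, B, hJ, h2, h3, h4, rfl⟩ := sigma_decomp h1 hA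
      obtain ⟨g, hg⟩ := exists_surj (mk_option_le h0 hJ) ⟨none⟩
      have key : ∀ a, ∃ (d : lam.ord.ToType) (c : GSpace lam),
          (V d c)ᶜ = (g a).elim ∅ B := by
        intro a
        rcases hga : g a with _ | j
        · obtain ⟨d, hd⟩ := hes 1 le_rfl h1
          obtain ⟨c, hc⟩ := hV1 d univ (sigma_univ hN (he d).1)
          exact ⟨d, c, by rw [hc, compl_univ]; rfl⟩
        · obtain ⟨d, hd⟩ := hes (η j) (h2 j) (h3 j)
          obtain ⟨c, hc⟩ := hV1 d (B j)ᶜ (by rw [hd]; exact h4 j)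
          exact ⟨d, c, by rw [hc, compl_compl]; rfl⟩
      choose d c hdc using key
      let c' : GSpace lam := fun l =>
        Sum.elim (fun p : lam.ord.ToType × lam.ord.ToType => c p.1 p.2) d (Function.invFun ι l)
      have hinv : ∀ s, Function.invFun ι (ι s) = s := Function.leftInverse_invFun hι
      refine ⟨c', ?_⟩
      have e1 : ∀ a, c' (ι (Sum.inr a)) = d a := by
        intro a
        show Sum.elim _ _ (Function.invFun ι (ι (Sum.inr a))) = d a
        rw [hinv]; rfl
      have e2 : ∀ a, sh a c' = c a := by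
        intro a
        funext b
        show Sum.elim _ _ (Function.invFun ι (ι (Sum.inl (a, b)))) = c a b
        rw [hinv]; rfl
      have e3 : ∀ a, (V (c' (ι (Sum.inr a))) (sh a c'))ᶜ = (g a).elim ∅ B := by
        intro a
        rw [e1, e2, hdc]
      show (⋃ a, (V (c' (ι (Sum.inr a))) (sh a c'))ᶜ) = ⋃ j, B j
      rw [iUnion_congr e3]
      ext x
      simp only [mem_iUnion]
      constructor
      · rintro ⟨a, ha⟩
        rcases hga : g a with _ | j
        · rw [hga] at ha; exact ha.elim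
        · rw [hga] at ha; exact ⟨j, ha⟩
      · rintro ⟨j, hj⟩
        obtain ⟨a, ha⟩ := hg (some j)
        exact ⟨a, by rw [ha]; exact hj⟩
    · have e1 : {x | q x ∈ ⋃ a, (V (p x (ι (Sum.inr a))) (sh a (p x)))ᶜ} =
          ⋃ r : lam.ord.ToType × lam.ord.ToType, (p ⁻¹' {y | y (ι (Sum.inr r.1)) = r.2}) ∩
            {x | q x ∈ V r.2 (sh r.1 (p x))}ᶜ := by
        ext x
        simp only [mem_ofPred_eq, mem_iUnion, mem_inter_iff, mem_preimage, mem_compl_iff,
          Prod.exists]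
        constructor
        · rintro ⟨a, ha⟩
          exact ⟨a, _, rfl, ha⟩
        · rintro ⟨a, d, hd, hx⟩
          exact ⟨a, by rw [hd]; exact hx⟩
      rw [e1]
      refine SigmaClass.union ξ h1 (lam.ord.ToType × lam.ord.ToType) ?_ (fun r => e r.2) _
        (fun r => (he r.2).1) (fun r => (he r.2).2) fun r => ?_
      · have hL : #(lam.ord.ToType) = lam := mk_K
        have h1' : #(lam.ord.ToType × lam.ord.ToType) = #(lam.ord.ToType) * #(lam.ord.ToType) := by
          simp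
        rw [h1', hL, Cardinal.mul_eq_self h0.le]
      · rw [compl_inter, compl_compl]
        exact sigma_union h0
          (sigma_mono hN (he r.2).1 (SigmaClass.base _
            ((isClopen_coord h0 _ _).preimage hp).compl.isOpen))
          (hV2 r.2 (fun x => sh r.1 (p x)) q ((hsh r.1).comp hp) hq)
  · exact univ_one h0 hreg hpow

/-- the classes of the generalized Baire space are not closed under complements -/
theorem not_compl (h0 : ℵ₀ < lam) (hreg : lam.IsRegular) (hpow : 2 ^< lam = lam)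
    {ξ : Ordinal.{0}} (h1 : 1 ≤ ξ) (hξ : ξ < (Order.succ lam).ord) :
    ∃ D : Set (GSpace lam), SigmaClass lam ξ D ∧ ¬ SigmaClass lam ξ Dᶜ := by
  obtain ⟨V, hV1, hV2⟩ := universal h0 hreg hpow ξ h1 hξ
  refine ⟨{x | x ∈ V x}, hV2 id id continuous_id continuous_id, fun hcon => ?_⟩
  obtain ⟨c, hc⟩ := hV1 _ hcon
  have h2 : c ∈ V c ↔ c ∈ {x | x ∈ V x}ᶜ := by rw [hc]
  by_cases h : c ∈ V c
  · exact (h2.1 h) h
  · exact h (h2.2 h)

/-- a measurable function in `M_{ξ+1}` which is not in `M_ξ` -/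
theorem exists_not_meas (h0 : ℵ₀ < lam) (hreg : lam.IsRegular) (hpow : 2 ^< lam = lam)
    {ξ : Ordinal.{0}} (h1 : 1 ≤ ξ) (hξ : ξ < (Order.succ lam).ord) {Y : Set (GSpace lam)}
    (hY : Y.Nontrivial) :
    ∃ f : ↥(univ : Set (GSpace lam)) → Y, Meas lam (ξ + 1) f ∧ ¬ Meas lam ξ f := by
  classical
  obtain ⟨D, hD, hD'⟩ := not_compl h0 hreg hpow h1 hξ
  obtain ⟨y0, hy0, y1, hy1, hne⟩ := hY
  have hN : Nice lam (univ : Set (GSpace lam)) := nice_sub h0 hreg hpow _
  let D' : Set (univ : Set (GSpace lam)) := Subtype.val ⁻¹' D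
  have hDs : SigmaClass lam ξ D' := sigma_preimage continuous_subtype_val hD
  let f : ↥(univ : Set (GSpace lam)) → Y := fun x => if x ∈ D' then ⟨y0, hy0⟩ else ⟨y1, hy1⟩
  refine ⟨f, fun U _ => ?_, fun hM => ?_⟩
  · have hle : ξ ≤ ξ + 1 := le_self_add
    have key : f ⁻¹' U = (if (⟨y0, hy0⟩ : Y) ∈ U then D' else ∅) ∪
        (if (⟨y1, hy1⟩ : Y) ∈ U then D'ᶜ else ∅) := by
      ext x
      by_cases hx : x ∈ D'
      · have e : f x = ⟨y0, hy0⟩ := if_pos hx
        simp only [mem_preimage, e, mem_union]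
        split_ifs <;> simp_all
      · have e : f x = ⟨y1, hy1⟩ := if_neg hx
        simp only [mem_preimage, e, mem_union]
        split_ifs <;> simp_all
    rw [key]
    refine sigma_union h0 ?_ ?_
    · split_ifs
      · exact sigma_mono hN hle hDs
      · exact sigma_empty h0 (h1.trans hle)
    · split_ifs
      · exact hDs.compl h0
      · exact sigma_empty h0 (h1.trans hle)
  · obtain ⟨b, hb⟩ : ∃ b, y1 b ≠ y0 b := by
      by_contra hcon
      push Not at hcon
      exact hne (funext fun b => (hcon b).symm)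
    have hnm : NoMaxOrder lam.ord.ToType := Cardinal.noMaxOrder h0.le
    obtain ⟨a, ha⟩ := exists_gt b
    have h2 := hM (Subtype.val ⁻¹' (N y1 a)) ((isOpen_N _ _).preimage continuous_subtype_val)
    have h3 : f ⁻¹' (Subtype.val ⁻¹' (N y1 a)) = D'ᶜ := by
      ext x
      by_cases hx : x ∈ D'
      · have e : f x = ⟨y0, hy0⟩ := if_pos hx
        simp only [mem_preimage, e, mem_compl_iff, hx, not_true, iff_false]
        intro hc
        exact hb (hc b ha).symm
      · have e : f x = ⟨y1, hy1⟩ := if_neg hx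
        simp only [mem_preimage, e, mem_compl_iff, hx, not_false_iff, iff_true]
        exact mem_N_self _ _
    rw [h3] at h2
    apply hD'
    have hc : Continuous (fun x : GSpace lam => (⟨x, mem_univ x⟩ : (univ : Set (GSpace lam)))) :=
      Continuous.subtype_mk continuous_id _
    exact sigma_preimage hc h2

end Pool.Agent.Q215.GB
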