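import Pool.Agent.Q215.GB.Cod
import Pool.Agent.Q215.GB.Bwd

/-!
Functions in `M_{ξ+1}`, `ξ` limit of cofinality less than `lam`, are `lam`-limits of eventually
constant `cof ξ`-limits of functions in `M_{<ξ}`.
-/

set_option autoImplicit false

open Set Topology Filter Cardinal
open Pool.Agent.Results.MP_f4bae3_lc.SequentialLimits

namespace Pool.Agent.Q215.GB

variable {lam : Cardinal.{0}}

/-! ### Additivity -/

lemma isOpen_iInter_lt (hreg : lam.IsRegular) (h0 : ℵ₀ < lam) {X : Set (GSpace lam)} {I : Type}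
    (hI : #I < lam) {A : I → Set X} (hA : ∀ i, IsOpen (A i)) : IsOpen (⋂ i, A i) := by
  choose W hW hWA using fun i => isOpen_induced_iff.1 (hA i)
  have h1 : IsOpen (⋂ i, W i) := by
    refine isOpen_of_N fun x hx => ?_
    choose a ha using fun i => basis (nonempty_L h0) (hW i) x (mem_iInter.1 hx i)
    obtain ⟨c, hc⟩ := bdd hreg hI a
    exact ⟨c, subset_iInter fun i => (N_anti x (hc i).le).trans (ha i)⟩
  have e : (⋂ i, A i) = Subtype.val ⁻¹' (⋂ i, W i) := by
    rw [preimage_iInter]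
    exact iInter_congr fun i => (hWA i).symm
  rw [e]
  exact h1.preimage continuous_subtype_val

lemma isClopen_iInter_lt (hreg : lam.IsRegular) (h0 : ℵ₀ < lam) {X : Set (GSpace lam)} {I : Type}
    (hI : #I < lam) {A : I → Set X} (hA : ∀ i, IsClopen (A i)) : IsClopen (⋂ i, A i) :=
  ⟨isClosed_iInter fun i => (hA i).isClosed, isOpen_iInter_lt hreg h0 hI fun i => (hA i).isOpen⟩

lemma isClopen_iUnion_lt (hreg : lam.IsRegular) (h0 : ℵ₀ < lam) {X : Set (GSpace lam)} {I : Type}
    (hI : #I < lam) {A : I → Set X} (hA : ∀ i, IsClopen (A i)) : IsClopen (⋃ i, A i) := by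
  have h := (isClopen_iInter_lt hreg h0 hI fun i => (hA i).compl).compl
  rwa [compl_iInter, iUnion_congr fun i => compl_compl (A i)] at h

lemma isClopen_ev (hreg : lam.IsRegular) (h0 : ℵ₀ < lam) {X : Set (GSpace lam)}
    (a : lam.ord.ToType) : ∀ c : Code lam X, IsClopen {x | c.ev a x}
  | .base V hV => hV
  | .node g => by
    have e : {x : X | Code.ev a (.node g : Code lam X) x} =
        ⋃ b : {b // b < a}, {x | (g b.1).ev a x}ᶜ := by
      ext x
      simp only [mem_iUnion, mem_compl_iff, mem_ofPred_eq, Subtype.exists, exists_prop]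
      rfl
    rw [e]
    exact isClopen_iUnion_lt hreg h0 (mk_Iio_lt a) fun b => (isClopen_ev hreg h0 a (g b.1)).compl

/-! ### Good ordinals -/

/-- a property of ordinals closed under limits has a largest element below every bound -/
lemma exists_max {P : lam.ord.ToType → Prop}
    (hP : ∀ a, (∀ b, b < a → ∃ a', b < a' ∧ a' ≤ a ∧ P a') → P a) (a : lam.ord.ToType) :
    ∃ m, m ≤ a ∧ P m ∧ ∀ a', a' ≤ a → P a' → a' ≤ m := by
  let s : Set lam.ord.ToType := {m | ∀ a', a' ≤ a → P a' → a' ≤ m}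
  have hne : s.Nonempty := ⟨a, fun a' h _ => h⟩
  have hwf : WellFounded ((· < ·) : lam.ord.ToType → lam.ord.ToType → Prop) := wellFounded_lt
  let m := hwf.min s hne
  have hm : m ∈ s := hwf.min_mem s hne
  have hmin : ∀ b, b < m → b ∉ s := fun b hb hbs => hwf.not_lt_min s hbs hb
  have hma : m ≤ a := by
    by_contra hcon
    exact hmin a (not_le.1 hcon) fun a' h _ => h
  refine ⟨m, hma, ?_, hm⟩
  refine hP m fun b hb => ?_
  by_contra hcon
  push Not at hcon
  refine hmin b hb fun a' ha' hPa' => ?_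
  by_contra hlt
  exact hcon a' (not_le.1 hlt) (hm a' ha' hPa') hPa'

section Good

variable {X : Type} [TopologicalSpace X] {K : Type} [LinearOrder K]

/-- `a` is good for all the codes `c i' u j` with `i' ≤ i` and `u, j < a` -/
def GoodI (c : K → lam.ord.ToType → lam.ord.ToType → Code lam X) (i : K) (a : lam.ord.ToType)
    (x : X) : Prop :=
  ∀ i', i' ≤ i → ∀ u j, u < a → j < a → (c i' u j).Gd a x

lemma goodI_anti {c : K → lam.ord.ToType → lam.ord.ToType → Code lam X} {i i' : K} (h : i ≤ i')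
    {a : lam.ord.ToType} {x : X} (hg : GoodI c i' a x) : GoodI c i a x :=
  fun k hk => hg k (hk.trans h)

lemma goodI_closed {c : K → lam.ord.ToType → lam.ord.ToType → Code lam X} {i : K} {x : X}
    (a : lam.ord.ToType) (h : ∀ b, b < a → ∃ a', b < a' ∧ a' ≤ a ∧ GoodI c i a' x) :
    GoodI c i a x := by
  intro i' hi' u j hu hj
  refine gd_closed hu _ x fun b hb => ?_
  obtain ⟨a', h1, h2, h3⟩ := h (max b (max u j)) (max_lt hb (max_lt hu hj))
  exact ⟨a', lt_of_le_of_lt (le_max_left _ _) h1, h2, h3 i' hi' u j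
    (lt_of_le_of_lt ((le_max_left _ _).trans (le_max_right _ _)) h1)
    (lt_of_le_of_lt ((le_max_right _ _).trans (le_max_right _ _)) h1)⟩

lemma exists_good (h0 : ℵ₀ < lam) (hreg : lam.IsRegular) (hK : #K < lam)
    (c : K → lam.ord.ToType → lam.ord.ToType → Code lam X) (x : X) (b0 : lam.ord.ToType) :
    ∃ a, b0 < a ∧ ∀ i, GoodI c i a x := by
  choose h hh using fun (i : K) (u j : lam.ord.ToType) => gd_fun h0 hreg (c i u j) x
  choose H hH using fun b : lam.ord.ToType => bdd hreg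
    (mk_prod_lt h0 hK (mk_prod_lt h0 (mk_Iic_lt h0 b)
      (mk_prod_lt h0 (mk_Iic_lt h0 b) (mk_Iic_lt h0 b))))
    (fun p : K × (Iic b × (Iic b × Iic b)) => h p.1 p.2.1.1 p.2.2.1.1 p.2.2.2.1)
  obtain ⟨a, ha1, ha2⟩ := exists_closed h0 hreg H b0
  refine ⟨a, ha1, fun i i' _ u j hu hj => hh i' u j a ⟨b0, ha1⟩ fun b hb => ?_⟩
  have h1 := hH (max b (max u j)) (i', (⟨u, mem_Iic.2 ((le_max_left _ _).trans (le_max_right _ _))⟩,
    (⟨j, mem_Iic.2 ((le_max_right _ _).trans (le_max_right _ _))⟩,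
      ⟨b, mem_Iic.2 (le_max_left _ _)⟩)))
  exact h1.trans (ha2 _ (max_lt hb (max_lt hu hj)))

lemma sigma_goodI (h0 : ℵ₀ < lam) (hN : Nice lam X) (hK : #K < lam)
    {c : K → lam.ord.ToType → lam.ord.ToType → Code lam X} {e : K → Ordinal.{0}}
    (he : ∀ k l, k ≤ l → e k ≤ e l) (hc : ∀ i u j, (c i u j).RkLe (e i)) (i : K)
    (a : lam.ord.ToType) :
    SigmaClass lam (e i + 1 + 1 + 1) {x | GoodI c i a x} ∧
      SigmaClass lam (e i + 1 + 1) {x | GoodI c i a x}ᶜ := by
  let I := {k // k ≤ i} × (Iio a × Iio a)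
  have hI : #I ≤ lam := (mk_prod_lt h0 (lt_of_le_of_lt (Cardinal.mk_subtype_le _) hK)
    (mk_prod_lt h0 (mk_Iio_lt a) (mk_Iio_lt a))).le
  have e1 : {x | GoodI c i a x} = ⋂ p : I, {x | (c p.1.1 p.2.1.1 p.2.2.1).Gd a x} := by
    ext x
    simp only [mem_iInter, mem_ofPred_eq]
    constructor
    · intro h p
      exact h p.1.1 p.1.2 p.2.1.1 p.2.2.1 p.2.1.2 p.2.2.2
    · intro h i' hi' u j hu hj
      exact h (⟨i', hi'⟩, (⟨u, hu⟩, ⟨j, hj⟩))
  rw [e1]
  exact sigma_iInter' h0 le_add_self hI fun p =>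
    (sigma_gd h0 hN a _ (e i) (rk_mono _ _ _ (he _ _ p.1.2) (hc _ _ _))).2

end Good

lemma decomp_L (h0 : ℵ₀ < lam) {X : Type} [TopologicalSpace X] (hN : Nice lam X)
    {ξ : Ordinal.{0}} (h1 : 1 ≤ ξ) {A : Set X} (hA : SigmaClass lam (ξ + 1) A) :
    ∃ R : lam.ord.ToType → Set X, (∀ j, SigmaClass lam ξ (R j)ᶜ) ∧ A = ⋃ j, R j := by
  obtain ⟨I, η, B, hI, h2, h3, h4, rfl⟩ := sigma_decomp (lt_of_le_of_lt h1 (lt_add_one ξ)) hA
  obtain ⟨g, hg⟩ := exists_surj (mk_option_le h0 hI) ⟨none⟩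
  refine ⟨fun j => (g j).elim ∅ B, fun j => ?_, ?_⟩
  · have h : ∀ o : Option I, SigmaClass lam ξ (o.elim ∅ B : Set X)ᶜ := by
      rintro (_ | i)
      · show SigmaClass lam ξ (∅ : Set X)ᶜ
        rw [compl_empty]
        exact sigma_univ hN h1
      · exact sigma_mono hN (Order.le_of_lt_add_one (h3 i)) (h4 i)
    exact h (g j)
  · ext x
    simp only [mem_iUnion]
    constructor
    · rintro ⟨i, hi⟩
      obtain ⟨j, hj⟩ := hg (some i)
      exact ⟨j, by rw [hj]; exact hi⟩
    · rintro ⟨j, hj⟩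
      rcases hgj : g j with _ | i
      · rw [hgj] at hj; exact hj.elim
      · rw [hgj] at hj; exact ⟨i, hj⟩

/-! ### The theorem -/

theorem weak (h0 : ℵ₀ < lam) (hreg : lam.IsRegular) (hpow : 2 ^< lam = lam)
    {X Y : Set (GSpace lam)} {ξ : Ordinal.{0}} (hlim : Order.IsSuccLimit ξ)
    (hcof : ξ.cof < lam) {f : X → Y} (hf : Meas lam (ξ + 1) f) :
    LamLim lam (EvLim lam ξ.cof ξ) f := by
  classical
  have hN : Nice lam X := nice_sub h0 hreg hpow X
  have hne := nonempty_L h0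
  obtain ⟨e, he1, he2, he3, he4⟩ := exists_seq hlim
  obtain ⟨k0, -⟩ := he4 1 (one_lt_limit hlim)
  rcases isEmpty_or_nonempty X with hX | ⟨⟨x0⟩⟩
  · exact ⟨fun _ => f, fun _ => ⟨fun _ => f, fun _ => ⟨1, le_rfl, one_lt_limit hlim,
      meas_of_isEmpty f⟩, fun x => (hX.false x).elim⟩, fun x => (hX.false x).elim⟩
  have hK : #(ξ.cof.ord.ToType) < lam := by
    rw [mk_K]; exact hcof
  obtain ⟨ψ, hψ⟩ := exists_surj (card_sigma h0 hreg hpow) (by
    exact ⟨⟨hne.some, fun b => b.1⟩⟩)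
  -- the sets `R u j` and their decompositions
  have hpre : ∀ u, SigmaClass lam (ξ + 1) (f ⁻¹' (Subtype.val ⁻¹' Bs (ψ u))) := by
    intro u
    obtain ⟨z, hz⟩ := exists_N (ψ u)
    exact hf _ (by rw [hz]; exact (isOpen_N z _).preimage continuous_subtype_val)
  choose R hR1 hR2 using fun u => decomp_L h0 hN (one_lt_limit hlim).le (hpre u)
  choose Q hQ1 hQ2 hQ3 hQ4 using fun u j => sigma_dec hlim (one_lt_limit hlim) (hR1 u j)
  choose c hc1 hc2 using fun (i : ξ.cof.ord.ToType) (u j : lam.ord.ToType) =>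
    exists_code h0 hN (hQ1 u j (e i) (he1 i))
  have hRQ : ∀ u j x, (∀ i, x ∉ (c i u j).val) ↔ x ∈ R u j := by
    intro u j x
    constructor
    · intro h
      by_contra hx
      obtain ⟨ζ, hζ, hxζ⟩ := hQ3 u j x hx
      obtain ⟨i, hi⟩ := he4 ζ hζ
      apply h i
      rw [hc1]
      exact hQ2 u j _ _ hi hxζ
    · intro hx i hxi
      rw [hc1] at hxi
      exact hQ4 u j _ hxi hx
  -- the functions `g a`
  let S : lam.ord.ToType → X → Set lam.ord.ToType := fun a x =>
    {u | u < a ∧ ∃ j, j < a ∧ ∀ i, ¬ (c i u j).ev a x}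
  let G : Set lam.ord.ToType → Y := fun s =>
    if h : ∃ y : Y, ∀ u ∈ s, y.1 ∈ Bs (ψ u) then h.choose else f x0
  have hSgood : ∀ a x, (∀ i, GoodI c i a x) → ∀ u, u < a → ∀ j, j < a →
      ((∀ i, ¬ (c i u j).ev a x) ↔ x ∈ R u j) := by
    intro a x hg u hu j hj
    rw [← hRQ]
    exact forall_congr' fun i => not_congr (ev_iff _ x (hg i i le_rfl u j hu hj))
  have hSmem : ∀ a x, (∀ i, GoodI c i a x) → ∀ u ∈ S a x, (f x).1 ∈ Bs (ψ u) := by
    rintro a x hg u ⟨hu, j, hj, hev⟩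
    have h1 : x ∈ R u j := (hSgood a x hg u hu j hj).1 hev
    have h2 : x ∈ f ⁻¹' (Subtype.val ⁻¹' Bs (ψ u)) := by
      rw [hR2 u]; exact mem_iUnion.2 ⟨j, h1⟩
    exact h2
  have hGgood : ∀ a x, (∀ i, GoodI c i a x) → ∀ u ∈ S a x, (G (S a x)).1 ∈ Bs (ψ u) := by
    intro a x hg u hu
    have h : ∃ y : Y, ∀ u ∈ S a x, y.1 ∈ Bs (ψ u) := ⟨f x, hSmem a x hg⟩
    simp only [G, dif_pos h]
    exact h.choose_spec u hu
  have hScl : ∀ a u, IsClopen {x | u ∈ S a x} := by
    intro a u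
    by_cases hu : u < a
    · have e1 : {x | u ∈ S a x} = ⋃ j : {j // j < a}, ⋂ i : ξ.cof.ord.ToType, {x | (c i u j.1).ev a x}ᶜ := by
        ext x
        simp only [mem_iUnion, mem_iInter, mem_compl_iff, mem_ofPred_eq, Subtype.exists,
          exists_prop]
        exact ⟨fun h => h.2, fun h => ⟨hu, h⟩⟩
      rw [e1]
      exact isClopen_iUnion_lt hreg h0 (mk_Iio_lt a) fun j => isClopen_iInter_lt hreg h0 hK
        fun i => (isClopen_ev hreg h0 a _).compl
    · have e1 : {x | u ∈ S a x} = ∅ := by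
        ext x
        exact ⟨fun h => absurd h.1 hu, fun h => h.elim⟩
      rw [e1]
      exact isClopen_empty
  have hGopen : ∀ a (U : Set Y), IsOpen ((fun x => G (S a x)) ⁻¹' U) := by
    intro a U
    rw [isOpen_iff_forall_mem_open]
    intro x hx
    refine ⟨⋂ u : Iio a, {x' | u.1 ∈ S a x' ↔ u.1 ∈ S a x}, ?_, ?_, ?_⟩
    · intro x' hx'
      have e1 : S a x' = S a x := by
        ext u
        by_cases hu : u < a
        · exact mem_iInter.1 hx' ⟨u, hu⟩
        · exact ⟨fun h => absurd h.1 hu, fun h => absurd h.1 hu⟩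
      show G (S a x') ∈ U
      rw [e1]
      exact hx
    · refine isOpen_iInter_lt hreg h0 (mk_Iio_lt a) fun u => ?_
      by_cases hu : u.1 ∈ S a x
      · have e1 : {x' | u.1 ∈ S a x' ↔ u.1 ∈ S a x} = {x' | u.1 ∈ S a x'} := by
          ext x'
          exact ⟨fun h => h.2 hu, fun h => ⟨fun _ => hu, fun _ => h⟩⟩
        rw [e1]
        exact (hScl a u.1).isOpen
      · have e1 : {x' | u.1 ∈ S a x' ↔ u.1 ∈ S a x} = {x' | u.1 ∈ S a x'}ᶜ := by
          ext x'
          exact ⟨fun h h' => hu (h.1 h'), fun h => ⟨fun h' => absurd h' h, fun h' => absurd h' hu⟩⟩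
        rw [e1]
        exact (hScl a u.1).compl.isOpen
    · exact mem_iInter.2 fun u => Iff.rfl
  -- the largest good ordinals
  choose M hM1 hM2 hM3 using fun (i : ξ.cof.ord.ToType) (a : lam.ord.ToType) (x : X) =>
    exists_max (P := fun a => GoodI c i a x) (fun a h => goodI_closed a h) a
  have hManti : ∀ i i' a x, i ≤ i' → M i' a x ≤ M i a x := fun i i' a x h =>
    hM3 i a x _ (hM1 i' a x) (goodI_anti h (hM2 i' a x))
  have hstab : ∀ a x, ∃ i, ∀ i', i ≤ i' → M i' a x = M i a x := by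
    intro a x
    have hwf : WellFounded ((· < ·) : lam.ord.ToType → lam.ord.ToType → Prop) := wellFounded_lt
    obtain ⟨m, ⟨i, rfl⟩, hmin⟩ := hwf.has_min (range fun i => M i a x) ⟨_, k0, rfl⟩
    refine ⟨i, fun i' hi' => le_antisymm (hManti i i' a x hi') ?_⟩
    exact not_lt.1 (hmin _ ⟨i', rfl⟩)
  choose s hs using hstab
  refine ⟨fun a x => G (S (M (s a x) a x) x), fun a => ⟨fun i x => G (S (M i a x) x), fun i => ?_,
    fun x => ⟨s a x, fun i hi => ?_⟩⟩, fun x => ?_⟩
  · -- measurability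
    have hh1 : e i < e i + 1 + 1 + 1 + 1 := ((lt_add_one _).trans (lt_add_one _)).trans
      ((lt_add_one _).trans (lt_add_one _))
    refine ⟨e i + 1 + 1 + 1 + 1, le_add_self, hlim.add_one_lt (hlim.add_one_lt
      (hlim.add_one_lt (hlim.add_one_lt (he2 i)))), fun U _ => ?_⟩
    have hgood := fun a => sigma_goodI h0 hN hK he3 hc2 i a
    have hMm : ∀ m, SigmaClass lam (e i + 1 + 1 + 1 + 1) {x | M i a x = m} := by
      intro m
      by_cases hma : m ≤ a
      · have e1 : {x | M i a x = m} = {x | GoodI c i m x} ∩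
            ⋂ a' : {a' // m < a' ∧ a' ≤ a}, {x | GoodI c i a'.1 x}ᶜ := by
          ext x
          simp only [mem_inter_iff, mem_iInter, mem_compl_iff, mem_ofPred_eq]
          constructor
          · rintro rfl
            refine ⟨hM2 i a x, fun a' h => ?_⟩
            exact absurd (hM3 i a x _ a'.2.2 h) (not_le.2 a'.2.1)
          · rintro ⟨h1, h2⟩
            refine le_antisymm ?_ (hM3 i a x m hma h1)
            by_contra hlt
            exact h2 ⟨M i a x, not_le.1 hlt, hM1 i a x⟩ (hM2 i a x)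
        rw [e1]
        refine sigma_inter h0 hN (sigma_mono hN le_self_add (hgood m).1)
          (sigma_iInter' h0 le_add_self card_le_of_subtype fun a' => ?_).1
        rw [compl_compl]
        exact (hgood a'.1).1
      · have e1 : {x | M i a x = m} = ∅ := by
          ext x
          exact ⟨fun h => hma (h ▸ hM1 i a x), fun h => h.elim⟩
        rw [e1]
        exact sigma_empty h0 le_add_self
    have e1 : (fun x => G (S (M i a x) x)) ⁻¹' U =
        ⋃ m, {x | M i a x = m} ∩ (fun x => G (S m x)) ⁻¹' U := by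
      ext x
      simp only [mem_iUnion, mem_inter_iff, mem_preimage, mem_ofPred_eq]
      constructor
      · intro h
        exact ⟨_, rfl, h⟩
      · rintro ⟨m, rfl, h⟩
        exact h
    rw [e1]
    exact sigma_iUnion h0 le_add_self card_univ_le fun m => sigma_inter h0 hN (hMm m)
      (sigma_mono hN le_add_self (SigmaClass.base _ (hGopen m U)))
  · -- eventually constant
    show G (S (M i a x) x) = G (S (M (s a x) a x) x)
    rw [hs a x i hi]
  · -- convergence
    rw [tendsto_nhds]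
    intro U hU hx
    obtain ⟨W, hW, rfl⟩ := isOpen_induced_iff.1 hU
    obtain ⟨γ, hγ⟩ := basis hne hW (f x).1 hx
    obtain ⟨u, hu⟩ := hψ ⟨γ, rst γ (f x).1⟩
    have hxu : x ∈ f ⁻¹' (Subtype.val ⁻¹' Bs (ψ u)) := by
      show (f x).1 ∈ Bs (ψ u)
      rw [hu]
      intro b
      rfl
    rw [hR2 u] at hxu
    obtain ⟨j, hj⟩ := mem_iUnion.1 hxu
    obtain ⟨a0, ha0, hgood0⟩ := exists_good h0 hreg hK c x (max u j)
    filter_upwards [eventually_ge_atTop a0] with a ha
    have hgood : ∀ i, GoodI c i (M (s a x) a x) x := by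
      intro i
      have h1 := hM2 (max i (s a x)) a x
      rw [hs a x _ (le_max_right _ _)] at h1
      exact goodI_anti (le_max_left _ _) h1
    have hge : a0 ≤ M (s a x) a x := hM3 _ a x a0 ha (hgood0 _)
    have hu' : u < M (s a x) a x := (lt_of_le_of_lt (le_max_left _ _) ha0).trans_le hge
    have hj' : j < M (s a x) a x := (lt_of_le_of_lt (le_max_right _ _) ha0).trans_le hge
    have huS : u ∈ S (M (s a x) a x) x :=
      ⟨hu', j, hj', (hSgood _ x hgood u hu' j hj').2 hj⟩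
    have h3 := hGgood _ x hgood u huS
    rw [hu] at h3
    apply hγ
    intro b hb
    exact h3 ⟨b, hb⟩

end Pool.Agent.Q215.GB
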